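import Pool.Agent.H214Z.Katz

set_option autoImplicit false

namespace Pool.Agent.Results.MP_cbd4b2_an.AThreeColours

open Pool.Agent.H214Z.Katz

/-- Katznelson's question below four colours. (1) circular colourings of circumference below
four, (2) colourings with at most three colours, (3) sets three translates of which cover. -/
theorem result :
    (∀ (S : Set ℕ) (ε : ℝ), 1 / 4 < ε →
      (∀ α : ℝ, ∃ n ∈ S, |(n : ℝ) * α - ((round ((n : ℝ) * α) : ℤ) : ℝ)| < ε) →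
      ∀ f : ℤ → ℝ, ∃ x : ℤ, ∃ n ∈ S,
        |(f (x + n) - f x) - ((round (f (x + n) - f x) : ℤ) : ℝ)| < ε) ∧
    (∀ S : Set ℕ,
      (∀ α : ℝ, ∃ n ∈ S, |(n : ℝ) * α - ((round ((n : ℝ) * α) : ℤ) : ℝ)| < 1 / 3) →
      ∀ r : ℕ, r ≤ 3 → ∀ c : ℤ → Fin r, ∃ x y : ℤ, c x = c y ∧ ∃ n ∈ S, y - x = (n : ℤ)) ∧
    (∀ S : Set ℕ,
      (∀ α : ℝ, ∃ n ∈ S, |(n : ℝ) * α - ((round ((n : ℝ) * α) : ℤ) : ℝ)| < 1 / 3) →
      ∀ (X : Type) (T : Equiv.Perm X) (U : Set X) (a b : ℤ), U.Nonempty →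
        (∀ x : X, x ∈ U ∨ (T ^ a) x ∈ U ∨ (T ^ b) x ∈ U) →
        ∃ n ∈ S, ∃ x ∈ U, (T ^ n) x ∈ U) := by
  have h2 : ∀ S : Set ℕ,
      (∀ α : ℝ, ∃ n ∈ S, |(n : ℝ) * α - ((round ((n : ℝ) * α) : ℤ) : ℝ)| < 1 / 3) →
      ∀ r : ℕ, r ≤ 3 → ∀ c : ℤ → Fin r, ∃ x y : ℤ, c x = c y ∧ ∃ n ∈ S, y - x = (n : ℤ) := by
    intro S hS r hr c
    by_contra hc
    obtain ⟨α, hα⟩ := three S r hr c fun x s hs e =>
      hc ⟨x, x + s, e.symm, s, hs, by ring⟩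
    obtain ⟨n, hn, hlt⟩ := hS α
    exact absurd (hα n hn _) (not_le.2 hlt)
  refine ⟨fun S ε hε hS f => ?_, h2, fun S hS X T U a b ⟨x0, _⟩ hcov => ?_⟩
  · by_contra hc
    obtain ⟨α, hα⟩ := circ S f ε hε fun x s hs k => by
      by_contra hk
      exact hc ⟨x, s, hs, lt_of_le_of_lt (round_le _ k) (not_le.1 hk)⟩
    obtain ⟨n, hn, hlt⟩ := hS α
    exact absurd (hα n hn _) (not_le.2 hlt)
  · let e : Fin 3 → ℤ := ![0, a, b]
    have hex : ∀ m : ℤ, ∃ i : Fin 3, (T ^ (e i + m)) x0 ∈ U := by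
      intro m
      rcases hcov ((T ^ m) x0) with h | h | h
      · exact ⟨0, by simpa [e] using h⟩
      · exact ⟨1, by simpa [e, zpow_add] using h⟩
      · exact ⟨2, by simpa [e, zpow_add] using h⟩
    choose c hc using hex
    obtain ⟨x, y, hxy, n, hn, hd⟩ := h2 S hS 3 le_rfl c
    refine ⟨n, hn, _, hc x, ?_⟩
    have := hc y
    rw [← hxy, show e (c x) + y = n + (e (c x) + x) by omega, zpow_add] at this
    simpa using this

end Pool.Agent.Results.MP_cbd4b2_an.AThreeColours
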